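import Pool.Agent.helper45.TC.Spec

/-!
# Row tc3:COV of MP_405bd9_al: the cover for `a < b < a + s`
-/

set_option autoImplicit false

open Polynomial Finset Pool.Agent.helper27.PC

namespace Pool.Agent.TC

/-- the sum of `x + 1` over the empty places of the component `c` below `n` -/
def COV_h (n : ℕ) (c : Bool) (S : St) : ℕ := ∑ x ∈ range n, if ((c, x) : Lab) ∈ S then 0 else x + 1

theorem COV_h_D (s a b : ℕ) (c d : Bool) (g : ℕ) (hg : g < s + a + b) (h0 : 1 ≤ a + s) :
    COV_h (s + a + b) d (D3 s a b c g) = if d = c then g + 1 else 0 := by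
  unfold COV_h
  by_cases h : d = c
  · rw [if_pos h, Finset.sum_eq_single g]
    · rw [if_neg]
      rw [mem_D3]
      rintro (h' | h')
      · have := (Prod.mk.inj h').2
        omega
      · exact h'.1 (by rw [h])
    · intro x hx hxg
      rw [Finset.mem_range] at hx
      rw [if_pos]
      rw [mem_D3]
      exact Or.inr ⟨fun h' => hxg (Prod.mk.inj h').2, hx⟩
    · intro h'
      exact absurd (Finset.mem_range.2 hg) h'
  · rw [if_neg h]
    refine Finset.sum_eq_zero fun x hx => ?_
    rw [if_pos]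
    rw [mem_D3]
    exact Or.inr ⟨fun h' => h (Prod.mk.inj h').1, Finset.mem_range.1 hx⟩

theorem COV_h_T (s a b : ℕ) (c d : Bool) (x₁ x₂ : ℕ) (h1 : x₁ < s + a + b) (h2 : x₂ < s + a + b)
    (h3 : s + a + b ≤ x₁ + s) (h4 : s + a + b ≤ x₂ + a) :
    COV_h (s + a + b) d (T2 s a b c x₁ x₂) = if d = c then x₁ + 1 else x₂ + 1 := by
  unfold COV_h
  by_cases h : d = c
  · have hc : d ≠ !c := by rw [h]; cases c <;> simp
    rw [if_pos h, Finset.sum_eq_single x₁]
    · rw [if_neg]
      rw [mem_T2]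
      rintro (h' | ⟨-, h' | h'⟩)
      · exact hc (Prod.mk.inj h').1
      · have := (Prod.mk.inj h').2
        omega
      · exact h'.1 (by rw [h])
    · intro x hx hxg
      rw [Finset.mem_range] at hx
      rw [if_pos]
      rw [mem_T2]
      exact Or.inr ⟨fun h' => hc (Prod.mk.inj h').1, Or.inr ⟨fun h' => hxg (Prod.mk.inj h').2, hx⟩⟩
    · intro h'
      exact absurd (Finset.mem_range.2 h1) h'
  · have hc : d = !c := by
      revert h
      cases d <;> cases c <;> simp
    rw [if_neg h, Finset.sum_eq_single x₂]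
    · rw [if_neg]
      rw [mem_T2]
      rintro (h' | ⟨h', -⟩)
      · have := (Prod.mk.inj h').2
        omega
      · exact h' (by rw [hc])
    · intro x hx hxg
      rw [Finset.mem_range] at hx
      rw [if_pos]
      rw [mem_T2]
      exact Or.inr ⟨fun h' => hxg (Prod.mk.inj h').2, Or.inr ⟨fun h' => h (Prod.mk.inj h').1, hx⟩⟩
    · intro h'
      exact absurd (Finset.mem_range.2 h2) h'

/-- the index type of the cover -/
abbrev COV_I : Type := Bool × Bool × Bool × Bool × ℕ

/-- the index set -/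
def COV_K (t : ℕ) : Finset COV_I := univ ×ˢ univ ×ˢ univ ×ˢ univ ×ˢ range t

/-- the pairs -/
def COV_f (s a b d t : ℕ) : COV_I → St × Lab
  | (false, false, false, c, j) => (D3 s a b c (a + b + (d + j)), (!c, sh c (2 * b - d + j)))
  | (false, false, true, c, j) => (T2 s a b c (a + b + (d + j)) (s + b + sh c (d + a - s + j)), (c, a + b + d + j + s))
  | (false, true, false, c, j) => (D3 s a b c (a + b + (2 * d + j)), (!c, sh c (b + s - d + j)))
  | (false, true, true, c, j) => (D3 s a b c (a + b + (2 * d + j)), (c, b + s - d + j))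
  | (true, false, false, c, j) => (D3 s a b c (b + (d + j)), (!c, sh c (b + t + d + j)))
  | (true, false, true, c, j) => (T2 s a b c (a + b + (d + j)) (s + b + sh c (d + j)), (c, a + d + j))
  | (true, true, false, c, j) => (D3 s a b c (b + j), (!c, sh c (2 * b - d + j)))
  | (true, true, true, c, j) => (D3 s a b c (b + j), (c, 2 * b - d + j))

/-- the exponents -/
def COV_e (s a b : ℕ) : COV_I → ℕ
  | (false, false, _, c, j) => 5 * b + 2 * s + a + 6 * (j + ix c)
  | (false, true, _, c, j) => 5 * b + 4 * s - a + 6 * (j + ix c)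
  | (true, false, _, c, j) => 3 * b + 2 * s - a + 6 * (j + ix c)
  | (true, true, _, c, j) => 3 * b + a + 6 * (j + ix c)

/-- the four numbers of an index -/
def COV_N (s a b d t : ℕ) : COV_I → ℕ × ℕ × ℕ × ℕ
  | (false, false, false, c, j) => if c then (a + b + (d + j) + 1, 0, 0, 2 * b - d + j + 1) else
      (0, a + b + (d + j) + 1, 1, 2 * b - d + j - 1)
  | (false, false, true, c, j) => if c then (a + b + (d + j) + 1, s + b + (d + a - s + j + 1) + 1, 1, a + b + d + j + s) else
      (s + b + (d + a - s + j - 1) + 1, a + b + (d + j) + 1, 0, a + b + d + j + s)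
  | (false, true, false, c, j) => if c then (a + b + (2 * d + j) + 1, 0, 0, b + s - d + j + 1) else
      (0, a + b + (2 * d + j) + 1, 1, b + s - d + j - 1)
  | (false, true, true, c, j) => if c then (a + b + (2 * d + j) + 1, 0, 1, b + s - d + j) else
      (0, a + b + (2 * d + j) + 1, 0, b + s - d + j)
  | (true, false, false, c, j) => if c then (b + (d + j) + 1, 0, 0, b + t + d + j + 1) else
      (0, b + (d + j) + 1, 1, b + t + d + j - 1)
  | (true, false, true, c, j) => if c then (a + b + (d + j) + 1, s + b + (d + j + 1) + 1, 1, a + d + j) else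
      (s + b + (d + j - 1) + 1, a + b + (d + j) + 1, 0, a + d + j)
  | (true, true, false, c, j) => if c then (b + j + 1, 0, 0, 2 * b - d + j + 1) else
      (0, b + j + 1, 1, 2 * b - d + j - 1)
  | (true, true, true, c, j) => if c then (b + j + 1, 0, 1, 2 * b - d + j) else
      (0, b + j + 1, 0, 2 * b - d + j)

/-- the four numbers of a pair -/
def COV_M (n : ℕ) (p : St × Lab) : ℕ × ℕ × ℕ × ℕ := (COV_h n true p.1, COV_h n false p.1, ix p.2.1, p.2.2)

theorem COV_MN (s a b d t : ℕ) (ht : 1 ≤ t) (hd : 1 ≤ d) (hs : s = t + 2 * d) (ha : s ≤ a) (hb : b = a + 2 * d)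
    (x y z c : Bool) (j : ℕ) (hj : j < t) :
    COV_M (s + a + b) (COV_f s a b d t (x, y, z, c, j)) = COV_N s a b d t (x, y, z, c, j) := by
  cases x <;> cases y <;> cases z
  · unfold COV_M COV_f
    simp only
    rw [COV_h_D _ _ _ _ _ _ (by omega) (by omega), COV_h_D _ _ _ _ _ _ (by omega) (by omega)]
    cases c <;> simp [COV_N, ix, sh]
  · unfold COV_M COV_f
    simp only
    rw [COV_h_T _ _ _ _ _ _ _ (by omega) (by cases c <;> simp [sh] <;> omega)
        (by omega) (by cases c <;> simp [sh] <;> omega),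
      COV_h_T _ _ _ _ _ _ _ (by omega) (by cases c <;> simp [sh] <;> omega)
        (by omega) (by cases c <;> simp [sh] <;> omega)]
    cases c <;> simp [COV_N, ix, sh]
  · unfold COV_M COV_f
    simp only
    rw [COV_h_D _ _ _ _ _ _ (by omega) (by omega), COV_h_D _ _ _ _ _ _ (by omega) (by omega)]
    cases c <;> simp [COV_N, ix, sh]
  · unfold COV_M COV_f
    simp only
    rw [COV_h_D _ _ _ _ _ _ (by omega) (by omega), COV_h_D _ _ _ _ _ _ (by omega) (by omega)]
    cases c <;> simp [COV_N, ix]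
  · unfold COV_M COV_f
    simp only
    rw [COV_h_D _ _ _ _ _ _ (by omega) (by omega), COV_h_D _ _ _ _ _ _ (by omega) (by omega)]
    cases c <;> simp [COV_N, ix, sh]
  · unfold COV_M COV_f
    simp only
    rw [COV_h_T _ _ _ _ _ _ _ (by omega) (by cases c <;> simp [sh] <;> omega)
        (by omega) (by cases c <;> simp [sh] <;> omega),
      COV_h_T _ _ _ _ _ _ _ (by omega) (by cases c <;> simp [sh] <;> omega)
        (by omega) (by cases c <;> simp [sh] <;> omega)]
    cases c <;> simp [COV_N, ix, sh]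
  · unfold COV_M COV_f
    simp only
    rw [COV_h_D _ _ _ _ _ _ (by omega) (by omega), COV_h_D _ _ _ _ _ _ (by omega) (by omega)]
    cases c <;> simp [COV_N, ix, sh]
  · unfold COV_M COV_f
    simp only
    rw [COV_h_D _ _ _ _ _ _ (by omega) (by omega), COV_h_D _ _ _ _ _ _ (by omega) (by omega)]
    cases c <;> simp [COV_N, ix]

theorem COV_inj (s a b d t : ℕ) (ht : 1 ≤ t) (hd : 1 ≤ d) (hs : s = t + 2 * d) (ha : s ≤ a) (hb : b = a + 2 * d)
    (x y z c x' y' z' c' : Bool) (j j' : ℕ) (hj : j < t) (hj' : j' < t)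
    (h : COV_N s a b d t (x, y, z, c, j) = COV_N s a b d t (x', y', z', c', j')) :
    ((x, y, z, c, j) : COV_I) = (x', y', z', c', j') := by
  cases x <;> cases y <;> cases z <;> cases x' <;> cases y' <;> cases z' <;> cases c <;> cases c' <;>
    simp only [COV_N, if_true, if_false, Bool.false_eq_true, Prod.mk.injEq] at h <;>
    first
      | (exfalso; omega)
      | (have hii : j = j' := by omega
         rw [hii])

theorem COV_mul (ε : ℤ) (p q e : ℕ) (Y W : ℤ[X]) (hY : Y = C ε * X ^ p) (hW : W ^ 2 = X ^ q) (h : 2 * p + q = e) :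
    Y ^ 2 * W ^ 2 = C (ε ^ 2) * X ^ e := by
  rw [hY, hW, mul_pow, ← C_pow, ← pow_mul, mul_assoc, ← pow_add, ← h, mul_comm p 2]

theorem COV_one (ε : ℤ) (h : ε = 1 ∨ ε = -1) : (1 : ℤ) ≤ ε ^ 2 := by
  rcases h with h | h <;> rw [h] <;> norm_num

theorem COV_four (s a : ℕ) (ε : ℤ) (h : ε ^ 2 = (if s = a then 4 else 1)) : (1 : ℤ) ≤ ε ^ 2 := by
  rw [h]
  split_ifs <;> norm_num

theorem COV_ok (hYV1 : YV1_stmt) (hYV2 : YV2_stmt) (s a b d t : ℕ) (ht : 1 ≤ t) (hd : 1 ≤ d)
    (hs : s = t + 2 * d) (ha : s ≤ a) (hb : b = a + 2 * d) (x y z c : Bool) (j : ℕ) (hj : j < t) :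
    (COV_f s a b d t (x, y, z, c, j)).2 ∈ addable b (COV_f s a b d t (x, y, z, c, j)).1 ∧
      ∃ ε : ℤ, (1 : ℤ) ≤ ε ^ 2 ∧
      yv s a b (COV_f s a b d t (x, y, z, c, j)).1 ^ 2 * wl (COV_f s a b d t (x, y, z, c, j)).2 ^ 2 =
        C (ε ^ 2) * X ^ COV_e s a b (x, y, z, c, j) := by
  cases x <;> cases y <;> cases z
  · obtain ⟨⟨ε, hε, h⟩, -⟩ := hYV1 s a b (by omega) ha (by omega) c (d + j) (by omega)
    refine ⟨?_, ε, COV_one ε hε, ?_⟩
    · rw [mem_ad]
      cases c <;> simp [COV_f, mem_D3, up, sh] <;> omega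
    · refine COV_mul ε _ _ _ _ _ h (wl_sq _) ?_
      cases c <;> simp [COV_f, COV_e, ix, sh] <;> omega
  · obtain ⟨ε, hε, h⟩ := hYV2 s a b (by omega) ha (by omega) c (d + j) (sh c (d + a - s + j))
      (by omega) (by cases c <;> simp [sh] <;> omega)
    refine ⟨?_, ε, COV_four s a ε hε, ?_⟩
    · rw [mem_ad]
      cases c <;> simp [COV_f, mem_T2, up, sh] <;> omega
    · refine COV_mul ε _ _ _ _ _ h (wl_sq _) ?_
      cases c <;> simp [COV_f, COV_e, ix, sh] <;> omega
  · obtain ⟨⟨ε, hε, h⟩, -⟩ := hYV1 s a b (by omega) ha (by omega) c (2 * d + j) (by omega)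
    refine ⟨?_, ε, COV_one ε hε, ?_⟩
    · rw [mem_ad]
      cases c <;> simp [COV_f, mem_D3, up, sh] <;> omega
    · refine COV_mul ε _ _ _ _ _ h (wl_sq _) ?_
      cases c <;> simp [COV_f, COV_e, ix, sh] <;> omega
  · obtain ⟨⟨ε, hε, h⟩, -⟩ := hYV1 s a b (by omega) ha (by omega) c (2 * d + j) (by omega)
    refine ⟨?_, ε, COV_one ε hε, ?_⟩
    · rw [mem_ad]
      cases c <;> simp [COV_f, mem_D3, up] <;> omega
    · refine COV_mul ε _ _ _ _ _ h (wl_sq _) ?_
      cases c <;> simp [COV_f, COV_e, ix] <;> omega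
  · obtain ⟨-, ε, hε, h⟩ := hYV1 s a b (by omega) ha (by omega) c (d + j) (by omega)
    refine ⟨?_, ε, COV_one ε hε, ?_⟩
    · rw [mem_ad]
      cases c <;> simp [COV_f, mem_D3, up, sh] <;> omega
    · refine COV_mul ε _ _ _ _ _ h (wl_sq _) ?_
      cases c <;> simp [COV_f, COV_e, ix, sh] <;> omega
  · obtain ⟨ε, hε, h⟩ := hYV2 s a b (by omega) ha (by omega) c (d + j) (sh c (d + j))
      (by omega) (by cases c <;> simp [sh] <;> omega)
    refine ⟨?_, ε, COV_four s a ε hε, ?_⟩
    · rw [mem_ad]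
      cases c <;> simp [COV_f, mem_T2, up, sh] <;> omega
    · refine COV_mul ε _ _ _ _ _ h (wl_sq _) ?_
      cases c <;> simp [COV_f, COV_e, ix, sh] <;> omega
  · obtain ⟨-, ε, hε, h⟩ := hYV1 s a b (by omega) ha (by omega) c j (by omega)
    refine ⟨?_, ε, COV_one ε hε, ?_⟩
    · rw [mem_ad]
      cases c <;> simp [COV_f, mem_D3, up, sh] <;> omega
    · refine COV_mul ε _ _ _ _ _ h (wl_sq _) ?_
      cases c <;> simp [COV_f, COV_e, ix, sh] <;> omega
  · obtain ⟨-, ε, hε, h⟩ := hYV1 s a b (by omega) ha (by omega) c j (by omega)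
    refine ⟨?_, ε, COV_one ε hε, ?_⟩
    · rw [mem_ad]
      cases c <;> simp [COV_f, mem_D3, up] <;> omega
    · refine COV_mul ε _ _ _ _ _ h (wl_sq _) ?_
      cases c <;> simp [COV_f, COV_e, ix] <;> omega

theorem COV_sum (s a b t : ℕ) :
    ∑ i ∈ COV_K t, C (1 : ℤ) * X ^ COV_e s a b i = 2 * ∑ c : Bool, ∑ j ∈ range t, ng s a b c j := by
  unfold COV_K
  rw [sum_product, Fintype.sum_bool, sum_product, sum_product, Fintype.sum_bool, Fintype.sum_bool,
    sum_product, sum_product, sum_product, sum_product, Fintype.sum_bool, Fintype.sum_bool,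
    Fintype.sum_bool, Fintype.sum_bool]
  simp only [sum_product, Fintype.sum_bool, C_1, one_mul, COV_e, ng, sum_add_distrib]
  ring

theorem COV (hCVG : CVG_stmt) (hYV1 : YV1_stmt) (hYV2 : YV2_stmt) : COV_stmt := by
  intro s a b d t ht hd hs ha hb k
  rw [← COV_sum s a b t]
  refine hCVG s a b (by omega) ha COV_I (COV_K t) (COV_f s a b d t) (COV_e s a b) (fun _ => 1) ?_ ?_ k
  · rintro ⟨x, y, z, c, j⟩ hi ⟨x', y', z', c', j'⟩ hj hij
    have hj1 : j < t := by
      have h1 := Finset.mem_coe.1 hi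
      unfold COV_K at h1
      simp only [mem_product, mem_univ, true_and, mem_range] at h1
      exact h1
    have hj2 : j' < t := by
      have h1 := Finset.mem_coe.1 hj
      unfold COV_K at h1
      simp only [mem_product, mem_univ, true_and, mem_range] at h1
      exact h1
    refine COV_inj s a b d t ht hd hs ha hb x y z c x' y' z' c' j j' hj1 hj2 ?_
    rw [← COV_MN s a b d t ht hd hs ha hb x y z c j hj1, ← COV_MN s a b d t ht hd hs ha hb x' y' z' c' j' hj2, hij]
  · rintro ⟨x, y, z, c, j⟩ hi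
    have hj1 : j < t := by
      unfold COV_K at hi
      simp only [mem_product, mem_univ, true_and, mem_range] at hi
      exact hi
    exact COV_ok hYV1 hYV2 s a b d t ht hd hs ha hb x y z c j hj1

end Pool.Agent.TC
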