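import Pool.Agent.helper45.TC.Spec

set_option autoImplicit false

open Polynomial Finset Pool.Agent.helper27.PC

namespace Pool.Agent.TC

theorem LO0_gv0 (n : ℕ) : GV n 0 (Finsupp.single (vac n) (1 : ℤ[X])) := by
  intro S hS
  rw [Finsupp.mem_support_iff] at hS
  have h1 : S = vac n := by
    by_contra h
    exact hS (Finsupp.single_eq_of_ne h)
  rw [h1]
  exact SD_good_vac n

theorem LO0_tel {R : Type} [CommRing R] (h : ℕ → R) (m s : ℕ) :
    ∑ x ∈ range (m + s), (h x - if s ≤ x then h (x - s) else 0) = ∑ i ∈ range s, h (m + i) := by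
  rw [sum_sub_distrib]
  have h1 : ∑ x ∈ range (m + s), (if s ≤ x then h (x - s) else 0) = ∑ x ∈ range m, h x := by
    rw [add_comm m s, sum_range_add]
    have h2 : ∑ x ∈ range s, (if s ≤ x then h (x - s) else 0) = 0 := by
      refine sum_eq_zero ?_
      intro x hx
      rw [if_neg]
      have := mem_range.1 hx
      omega
    rw [h2, zero_add]
    refine sum_congr rfl ?_
    intro x _
    rw [if_pos (by omega)]
    have h3 : s + x - s = x := by omega
    rw [h3]
  rw [h1, sum_range_add]
  ring

/-- the product of the weights -/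
theorem LO0_g (s a b i : ℕ) (hb : b = a + s) (c : Bool) :
    (wl (c, a + b + i) * wT true (s + a + b) s a (up s (c, a + b + i)) -
      wl (dn a (c, a + b + i)) * wT true (s + a + b) s a (dn a (c, a + b + i))) *
      wT true (s + a + b) 0 s (c, a + b + i) =
    (if c then 1 else -1) * ((X ^ (a + 2 * b) - X ^ b) * X ^ (3 * (i + ix c))) := by
  subst hb
  unfold wl wT wq up dn ix
  cases c
  · simp only [if_true, if_false, Bool.false_eq_true, add_zero]
    have e1 : s + a + (a + (a + s) + i + s) - (s + a + (a + s)) = a + s + i := by omega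
    have e2 : a + (a + s) + i - a = a + s + i := by omega
    have e3 : s + a + (a + s + i) - (s + a + (a + s)) = i := by omega
    have e4 : 0 + s + (a + (a + s) + i) - (s + a + (a + s)) = i := by omega
    rw [e1, e2, e3, e4]
    ring
  · simp only [if_true]
    have e1 : s + a + (a + (a + s) + i + s) + 1 - (s + a + (a + s)) = a + s + i + 1 := by omega
    have e2 : a + (a + s) + i - a = a + s + i := by omega
    have e3 : s + a + (a + s + i) + 1 - (s + a + (a + s)) = i + 1 := by omega
    have e4 : 0 + s + (a + (a + s) + i) + 1 - (s + a + (a + s)) = i + 1 := by omega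
    rw [e1, e2, e3, e4]
    ring

theorem LO0 (hLB : LB_stmt) (hLG : LG_stmt) : LO0_stmt := by
  intro s a b hs hsa hb
  have h0 := LO0_gv0 (s + a + b)
  have hv := (hLG ℤ[X] (wT true (s + a + b) 0 s) (s + a + b) 0 s _ hs h0).1
  have h1 := (hLB ℤ[X] wl (wT true (s + a + b) s a) (s + a + b) (0 + s) b a _ (by omega) (by omega)
    hv (by omega)).2.2 (by omega)
  have h2 := (hLG ℤ[X] wl (s + a + b) (0 + s) b _ (by omega) hv).2.2 (by omega)
  rw [h2, map_zero, sub_zero] at h1
  have hbs : b - a = s := by omega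
  rw [hbs] at h1
  have h3 := (hLB ℤ[X] (fun l => wl l * wT true (s + a + b) s a (up s l) -
      wl (dn a l) * wT true (s + a + b) s a (dn a l)) (wT true (s + a + b) 0 s) (s + a + b) 0 s s _ hs hs
    h0 (by omega)).2.1 rfl
  have h4 := (hLG ℤ[X] (fun l => wl l * wT true (s + a + b) s a (up s l) -
      wl (dn a l) * wT true (s + a + b) s a (dn a l)) (s + a + b) 0 s _ hs h0).2.2 (by omega)
  rw [h4, map_zero, sub_zero] at h3
  rw [yv_eq, h1, h3]
  unfold Dg
  rw [Finsupp.linearCombination_single, one_smul, Finsupp.single_eq_same]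
  unfold vac
  rw [sum_product]
  have hn : s + a + b = (a + b) + s := by omega
  have h5 : ∀ c : Bool, ∑ x ∈ range (s + a + b),
      ((fun l : Lab => wl l * wT true (s + a + b) s a (up s l) -
        wl (dn a l) * wT true (s + a + b) s a (dn a l)) (c, x) * wT true (s + a + b) 0 s (c, x) -
        if s ≤ (c, x).2 then (fun l : Lab => wl l * wT true (s + a + b) s a (up s l) -
        wl (dn a l) * wT true (s + a + b) s a (dn a l)) (dn s (c, x)) *
          wT true (s + a + b) 0 s (dn s (c, x)) else 0) =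
      (if c then 1 else -1) * ∑ i ∈ range s, (X ^ (a + 2 * b) - X ^ b) * X ^ (3 * (i + ix c)) := by
    intro c
    have h6 := LO0_tel (fun x : ℕ => (wl (c, x) * wT true (s + a + b) s a (up s (c, x)) -
      wl (dn a (c, x)) * wT true (s + a + b) s a (dn a (c, x))) *
      wT true (s + a + b) 0 s (c, x)) (a + b) s
    rw [mul_sum]
    rw [sum_congr rfl (fun i _ => LO0_g s a b i hb c)] at h6
    rw [← h6, ← hn]
    rfl
  rw [sum_congr rfl (fun c _ => h5 c), Fintype.sum_bool]
  simp only [if_true, if_false, Bool.false_eq_true, ix, add_zero]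
  have h7 : ∑ i ∈ range s, (X ^ (a + 2 * b) - X ^ b : ℤ[X]) * X ^ (3 * (i + 1)) -
      ∑ i ∈ range s, (X ^ (a + 2 * b) - X ^ b : ℤ[X]) * X ^ (3 * i) =
      (X ^ (a + 2 * b) - X ^ b) * (X ^ (3 * s) - 1) := by
    rw [← mul_sum, ← mul_sum, ← mul_sub, ← sum_sub_distrib,
      sum_range_sub (fun i => (X ^ (3 * i) : ℤ[X])), mul_zero, pow_zero]
  rw [← h7]
  ring

end Pool.Agent.TC
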